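import Pool.Agent.PS.Fin

set_option autoImplicit false

/-!
# MP_3de29c_al, Q2: groups with conformal dimension arbitrarily close to 2

For every `ε > 0` the right-angled Coxeter group `Wk k`, whose nerve is the flag complex of the
triangular lattice modulo `k` (a flag triangulation of the torus), is hyperbolic with boundary of
conformal dimension less than `2 + ε`, for all large `k`.
-/

namespace Pool.Agent.Results.MP_3de29c_al.HexagonalTorusGroups

open PS

/-- For every `ε > 0` there is `N` such that for all `k ≥ N`: the neighbours of every vertex of the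
triangular lattice modulo `k` form a hexagon; the right-angled Coxeter group `Wk k` of this graph is
generated by `gens k`, its word metric is Gromov hyperbolic, and the conformal dimension of its
Gromov boundary is less than `2 + ε`. -/
theorem result (ε : ℝ) (hε : 0 < ε) : ∃ N : ℕ, ∀ k : ℕ, N ≤ k →
    (∀ s : ZMod k × ZMod k, ∃ e : Fin 6 → ZMod k × ZMod k, Function.Injective e ∧
      (∀ t, (hexTorus k).Adj s t ↔ ∃ i, t = e i) ∧
      ∀ i j, (hexTorus k).Adj (e i) (e j) ↔ (j = i + 1 ∨ i = j + 1)) ∧
    Subgroup.closure (gens k) = ⊤ ∧
    IsHyp (wdist (gens k)) ∧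
    confDim (wdist (gens k)) 1 < ENNReal.ofReal (2 + ε) := by
  obtain ⟨N, hN⟩ := main ε hε
  refine ⟨N + 5, fun k hk => ⟨fun s => nerve k (by omega) s, ?_, hN k (by omega)⟩⟩
  exact (racg (hexTorus k)).toCoxeterSystem.subgroup_closure_range_simple

end Pool.Agent.Results.MP_3de29c_al.HexagonalTorusGroups
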